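import Pool.Agent.L7h35.GP.Fin
import Pool.Agent.L7h35.GP.Tr
import Pool.Agent.L7h35.GP.Ext
import Pool.Agent.L7h35.GP.Ind
import Pool.Agent.L7h35.GP.Up
import Pool.Agent.L7h35.GP.Det
import Pool.Agent.L7h35.GP.Chain
import Pool.Agent.L7h35.GP.Zs
import Pool.Agent.L7h35.GP.Split
import Pool.Agent.L7h44.GP.Sym
import Pool.Agent.L7h44.GP.E1
import Pool.Agent.L7h44.GP.E2
import Pool.Agent.L7h44.GP.E3
import Pool.Agent.L7h54.GP.Girth
import Pool.Agent.L7h54.GP.Pm2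

/-!
# Gaps in the j-primitive degrees of non-primitive tensors: the complete answer for order two

For `n ≥ 3` the set `R_j(2,n)` is `{1, ..., n² - 4 n + 6}` if `n` is even and
`{1, ..., n² - 6 n + 12} ∪ {n² - 5 n + 6, ..., n² - 4 n + 6}` if `n` is odd, and `R_j(2,2) = {1}`.
So `R_j(2,n)` has a gap if and only if `n` is odd and `n ≥ 9`; in particular `R_j(m,n)` is not
always an interval of consecutive integers (`R_j(2,9)` contains neither 40 nor 41, but 51).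
-/

set_option autoImplicit false

namespace Pool.Agent.Results.MP_fa7001_co.OrderTwo

/-- the set of all `u` with `a_{u i_2 ... i_m} > 0` for some `i_2, ..., i_m ∈ S` -/
def next {m n : ℕ} (A : Fin n → (Fin (m - 1) → Fin n) → ℝ) (S : Set (Fin n)) : Set (Fin n) :=
  {u | ∃ i : Fin (m - 1) → Fin n, (∀ t, i t ∈ S) ∧ 0 < A u i}

/-- the sets `S_k(A, j)` for `k ≥ 1` (and `S_0(A, j) = {j}`) -/
def S {m n : ℕ} (A : Fin n → (Fin (m - 1) → Fin n) → ℝ) (j : Fin n) : ℕ → Set (Fin n)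
  | 0 => {j}
  | k + 1 => next A (S A j k)

/-- `A` is `j`-primitive -/
def JPrimitive {m n : ℕ} (A : Fin n → (Fin (m - 1) → Fin n) → ℝ) (j : Fin n) : Prop :=
  ∃ k, 1 ≤ k ∧ S A j k = Set.univ

/-- the `j`-primitive degree `γ_j(A)` -/
noncomputable def gamma {m n : ℕ} (A : Fin n → (Fin (m - 1) → Fin n) → ℝ) (j : Fin n) : ℕ :=
  sInf {k | 1 ≤ k ∧ S A j k = Set.univ}

/-- the set `R_j(m, n)`: all `γ_j(A)` for nonnegative, `j`-primitive, not primitive `A` -/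
def R (m n : ℕ) (j : Fin n) : Set ℕ :=
  {k | ∃ A : Fin n → (Fin (m - 1) → Fin n) → ℝ, (∀ u i, 0 ≤ A u i) ∧
    ¬ (∀ j' : Fin n, JPrimitive A j') ∧ JPrimitive A j ∧ gamma A j = k}

/-- `X` has a gap: an integer strictly between two elements of `X` that is not in `X` -/
def HasGap (X : Set ℕ) : Prop := ∃ k, k ∉ X ∧ (∃ x ∈ X, x < k) ∧ ∃ y ∈ X, k < y

lemma S_eq {m n : ℕ} (A : Fin n → (Fin (m - 1) → Fin n) → ℝ) (j : Fin n) (k : ℕ) :
    S A j k = L7h35.GP.S A j k := by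
  induction k with
  | zero => rfl
  | succ k ih =>
    show next A (S A j k) = L7h35.GP.next A (L7h35.GP.S A j k)
    rw [ih]
    rfl

lemma R_eq (m n : ℕ) (j : Fin n) : R m n j = L7h35.GP.R m n j := by
  unfold R L7h35.GP.R JPrimitive L7h35.GP.JPrimitive gamma L7h35.GP.gamma
  simp only [S_eq]

lemma gap_iff (X : Set ℕ) : HasGap X ↔ L7h35.GP.HasGap X := Iff.rfl

/-- The sets `R_j(2,n)`, and for which `n` they have a gap. -/
theorem result :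
    (∀ (n : ℕ) (j : Fin n), 3 ≤ n → R 2 n j = {k | 1 ≤ k ∧ k + 4 * n ≤ n ^ 2 + 6 ∧
      (Even n ∨ k + 6 * n ≤ n ^ 2 + 12 ∨ n ^ 2 + 6 ≤ k + 5 * n)}) ∧
    (∀ j : Fin 2, R 2 2 j = {1}) ∧
    (∀ (n : ℕ) (j : Fin n), 2 ≤ n → (HasGap (R 2 n j) ↔ Odd n ∧ 9 ≤ n)) := by
  have hG := L7h54.GP.s_GIRTH L7h35.GP.s_CHAIN L7h35.GP.s_ZS
  have hO := L7h35.GP.s_ODD L7h35.GP.s_SPLIT
  have hP2 := L7h54.GP.s_PM2 L7h35.GP.s_ZS hO L7h35.GP.s_CHAIN
  have hP1 := L7h35.GP.s_PM1 L7h35.GP.s_SPLIT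
  have hUP := L7h35.GP.s_UP hG L7h35.GP.s_DET hP2 hP1
  have hIND := L7h35.GP.s_IND L7h35.GP.s_EXT (L7h44.GP.s_E1 L7h44.GP.s_SYM) L7h44.GP.s_E2
    (L7h44.GP.s_E3 L7h44.GP.s_SYM)
  obtain ⟨h1, h2, h3⟩ := L7h35.GP.s_FIN L7h35.GP.s_TR hIND hUP
  refine ⟨?_, ?_, ?_⟩
  · intro n j hn
    rw [R_eq]
    exact h1 n j hn
  · intro j
    rw [R_eq]
    exact h2 j
  · intro n j hn
    rw [R_eq, gap_iff]
    exact h3 n j hn

end Pool.Agent.Results.MP_fa7001_co.OrderTwo
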